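import Mathlib

set_option autoImplicit false

open Filter Topology

namespace Pool.Agent.H.MP_c8dc36_an

section Abstract

variable {M : Type}

structure Sys (op : M → M → M) (e : M) (N : M → ℝ) : Prop where
  comm : ∀ a b, op a b = op b a
  assoc : ∀ a b c, op (op a b) c = op a (op b c)
  one : ∀ a, op a e = a
  zero : N e = 0
  sub : ∀ a b, N (op a b) ≤ N a + N b
  mono : ∀ a b, N a ≤ N (op a b)
  two : ∀ a, N (op a a) = 2 * N a

def HH (op : M → M → M) (N : M → ℝ) : Set (M → ℝ) :=
  closure (Set.range fun c x => N (op x c) - N c)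

variable {op : M → M → M} {e : M} {N : M → ℝ}

lemma HH_ind {P : Set (M → ℝ)} (hP : IsClosed P) (h : ∀ c, (fun x => N (op x c) - N c) ∈ P)
    {p : M → ℝ} (hp : p ∈ HH op N) : p ∈ P :=
  closure_minimal (by rintro _ ⟨c, rfl⟩; exact h c) hP hp

lemma Sys.nonneg (S : Sys op e N) {p : M → ℝ} (hp : p ∈ HH op N) (x : M) : 0 ≤ p x := by
  refine HH_ind (P := {p | 0 ≤ p x}) (isClosed_le (by fun_prop) (by fun_prop)) (fun c => ?_) hp
  have := S.mono c x
  rw [S.comm] at this
  simp only [Set.mem_ofPred_eq]; linarith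

lemma Sys.le_N (S : Sys op e N) {p : M → ℝ} (hp : p ∈ HH op N) (x : M) : p x ≤ N x := by
  refine HH_ind (P := {p | p x ≤ N x}) (isClosed_le (by fun_prop) (by fun_prop)) (fun c => ?_) hp
  have := S.sub x c
  simp only [Set.mem_ofPred_eq]; linarith

lemma Sys.at_e (S : Sys op e N) {p : M → ℝ} (hp : p ∈ HH op N) : p e = 0 :=
  le_antisymm (S.zero ▸ S.le_N hp e) (S.nonneg hp e)

lemma Sys.lip (S : Sys op e N) {p : M → ℝ} (hp : p ∈ HH op N) (x b : M) :
    p (op x b) ≤ p x + N b := by
  refine HH_ind (P := {p | p (op x b) ≤ p x + N b}) (isClosed_le (by fun_prop) (by fun_prop))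
    (fun c => ?_) hp
  have := S.sub (op x c) b
  rw [S.assoc, S.comm c b, ← S.assoc] at this
  simp only [Set.mem_ofPred_eq]; linarith

lemma Sys.dbl (S : Sys op e N) {p : M → ℝ} (hp : p ∈ HH op N) (x : M) :
    2 * p x ≤ p (op x x) := by
  refine HH_ind (P := {p | 2 * p x ≤ p (op x x)}) (isClosed_le (by fun_prop) (by fun_prop))
    (fun c => ?_) hp
  have h1 := S.two (op x c)
  have h2 := S.sub (op (op x x) c) c
  have e1 : op (op x c) (op x c) = op (op (op x x) c) c := by
    rw [S.assoc x c, ← S.assoc c x c, S.comm c x, ← S.assoc, ← S.assoc]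
  rw [e1] at h1
  simp only [Set.mem_ofPred_eq]; linarith

lemma Sys.shift (S : Sys op e N) {p : M → ℝ} (hp : p ∈ HH op N) (b : M) :
    (fun x => p (op x b) - p b) ∈ HH op N := by
  refine map_mem_closure (f := fun (p : M → ℝ) x => p (op x b) - p b) (by fun_prop) hp ?_
  rintro _ ⟨c, rfl⟩
  refine ⟨op b c, ?_⟩
  funext x
  simp only [S.assoc]; ring

lemma Sys.N_mem (S : Sys op e N) : N ∈ HH op N :=
  subset_closure ⟨e, by funext x; simp [S.one, S.zero]⟩

lemma Sys.compact (S : Sys op e N) : IsCompact (HH op N) := by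
  refine (isCompact_univ_pi fun x => isCompact_Icc (a := 0) (b := N x)).of_isClosed_subset
    isClosed_closure fun p hp x _ => ⟨S.nonneg hp x, S.le_N hp x⟩

def pw (op : M → M → M) (e b : M) : ℕ → M
  | 0 => e
  | n + 1 => op (pw op e b n) b

lemma Sys.pw_add (S : Sys op e N) (b : M) (n m : ℕ) :
    pw op e b (n + m) = op (pw op e b n) (pw op e b m) := by
  induction m with
  | zero => simp [pw, S.one]
  | succ m ih => rw [← add_assoc]; simp only [pw]; rw [ih, S.assoc]

lemma Sys.pw_one (S : Sys op e N) (b : M) : pw op e b 1 = b := by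
  simp only [pw]; rw [S.comm, S.one]

lemma Sys.pw_ge (S : Sys op e N) {p : M → ℝ} (hp : p ∈ HH op N) (b : M) (k : ℕ) :
    2 ^ k * p b ≤ p (pw op e b (2 ^ k)) := by
  induction k with
  | zero => simp [S.pw_one]
  | succ k ih =>
    have := S.dbl hp (pw op e b (2 ^ k))
    rw [← S.pw_add, ← two_mul, ← pow_succ'] at this
    rw [pow_succ]; linarith

lemma Sys.pw_le (S : Sys op e N) {p : M → ℝ} (hp : p ∈ HH op N)
    (hs : ∀ x y, p (op x y) ≤ p x + p y) (b : M) (n : ℕ) : p (pw op e b n) ≤ n * p b := by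
  induction n with
  | zero => simp [pw, S.at_e hp]
  | succ n ih =>
    have := hs (pw op e b n) b
    simp only [pw]; push_cast; linarith

lemma Sys.pw_eq (S : Sys op e N) {p : M → ℝ} (hp : p ∈ HH op N)
    (hs : ∀ x y, p (op x y) ≤ p x + p y) (b : M) (n : ℕ) : p (pw op e b n) = n * p b := by
  refine le_antisymm (S.pw_le hp hs b n) ?_
  obtain ⟨m, hm⟩ := Nat.exists_eq_add_of_le (Nat.lt_two_pow_self (n := n)).le
  have h1 := S.pw_ge hp b n
  have h2 := hs (pw op e b n) (pw op e b m)
  have h3 := S.pw_le hp hs b m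
  rw [← S.pw_add, ← hm] at h2
  have h4 : (2 : ℝ) ^ n = n + m := by exact_mod_cast hm
  rw [h4] at h1
  linarith

lemma Sys.derive (S : Sys op e N) {p : M → ℝ} (hp : p ∈ HH op N)
    (hs : ∀ x y, p (op x y) ≤ p x + p y) (b : M) :
    ∃ q ∈ HH op N, (∀ x y, q (op x y) ≤ q x + q y) ∧ (∀ x, q x ≤ p (op x b) - p b) ∧
      (∀ x, q x + p b ≤ q (op x b)) ∧
      ∀ c t, (∀ x, p x + t ≤ p (op x c)) → ∀ x, q x + t ≤ q (op x c) := by
  let v : ℕ → M → ℝ := fun n x => p (op x (pw op e b n)) - p (pw op e b n)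
  have hv : ∀ n, v n ∈ HH op N := fun n => S.shift hp _
  have hv' : ∀ n x, v n x = p (op x (pw op e b n)) - n * p b := fun n x => by
    simp only [v, S.pw_eq hp hs]
  have hanti : ∀ x, Antitone fun n => v n x := fun x => by
    refine antitone_nat_of_succ_le fun n => ?_
    have := hs (op x (pw op e b n)) b
    rw [S.assoc] at this
    simp only [hv', pw]; push_cast; linarith
  have hbdd : ∀ x, BddBelow (Set.range fun n => v n x) := fun x =>
    ⟨0, by rintro _ ⟨n, rfl⟩; exact S.nonneg (hv n) x⟩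
  have ht : ∀ x, Tendsto (fun n => v n x) atTop (𝓝 (⨅ n, v n x)) := fun x =>
    tendsto_atTop_ciInf (hanti x) (hbdd x)
  have hle : ∀ x n, ⨅ n, v n x ≤ v n x := fun x n => ciInf_le (hbdd x) n
  refine ⟨fun x => ⨅ n, v n x, ?_, fun x y => ?_, fun x => ?_, fun x => ?_, fun c t hc x => ?_⟩
  · exact isClosed_closure.mem_of_tendsto (tendsto_pi_nhds.mpr ht) (Eventually.of_forall hv)
  · refine ge_of_tendsto' ((ht x).add (ht y)) fun n => le_trans (hle _ (n + n)) ?_
    have := hs (op x (pw op e b n)) (op y (pw op e b n))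
    have e1 : op (op x (pw op e b n)) (op y (pw op e b n)) = op (op x y) (pw op e b (n + n)) := by
      rw [S.pw_add, S.assoc x, S.assoc x, ← S.assoc _ y, S.comm _ y, S.assoc y]
    rw [e1] at this
    simp only [hv']; push_cast; linarith
  · refine le_trans (hle x 1) ?_
    simp only [v, S.pw_one, le_refl]
  · refine ge_of_tendsto' (ht (op x b)) fun n => ?_
    have := hle x (n + 1)
    have e1 : op (op x b) (pw op e b n) = op x (pw op e b (n + 1)) := by
      simp only [pw]; rw [S.assoc, S.comm b]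
    simp only [hv'] at this ⊢
    rw [e1]; push_cast at this; linarith
  · refine ge_of_tendsto' (ht (op x c)) fun n => ?_
    have h1 := hle x n
    have h2 := hc (op x (pw op e b n))
    have e1 : op (op x (pw op e b n)) c = op (op x c) (pw op e b n) := by
      rw [S.assoc, S.assoc, S.comm c]
    rw [e1] at h2
    simp only [hv'] at h1 ⊢
    linarith

theorem Sys.exists_additive (S : Sys op e N) (c0 : M) :
    ∃ p ∈ HH op N, (∀ x y, p (op x y) = p x + p y) ∧ p c0 = N c0 := by
  let K : Set (M → ℝ) := {p | p ∈ HH op N ∧ (∀ x y, p (op x y) ≤ p x + p y) ∧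
    ∀ x, p x + N c0 ≤ p (op x c0)}
  have hKc : IsClosed K := by
    have : K = HH op N ∩ ((⋂ x, ⋂ y, {p : M → ℝ | p (op x y) ≤ p x + p y}) ∩
        ⋂ x, {p : M → ℝ | p x + N c0 ≤ p (op x c0)}) := by
      ext p; simp only [K, Set.mem_inter_iff, Set.mem_iInter, Set.mem_ofPred_eq]
    rw [this]
    refine isClosed_closure.inter (IsClosed.inter ?_ ?_)
    · exact isClosed_iInter fun x => isClosed_iInter fun y =>
        isClosed_le (by fun_prop) (by fun_prop)
    · exact isClosed_iInter fun x => isClosed_le (by fun_prop) (by fun_prop)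
  have hK : IsCompact K := S.compact.of_isClosed_subset hKc fun p hp => hp.1
  have hne : K.Nonempty := by
    obtain ⟨q, h1, h2, -, h4, -⟩ := S.derive S.N_mem S.sub c0
    exact ⟨q, h1, h2, h4⟩
  obtain ⟨p, hp⟩ := zorn_le₀ (α := (M → ℝ)ᵒᵈ) K (fun C hC hch => by
    rcases C.eq_empty_or_nonempty with rfl | hCne
    · obtain ⟨q, hq⟩ := hne
      exact ⟨q, hq, by simp⟩
    · have : Nonempty C := hCne.to_subtype
      have hcl : ∀ z : C, IsClosed (K ∩ {q : M → ℝ | ∀ x, q x ≤ OrderDual.ofDual z.1 x}) := by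
        intro z
        refine hKc.inter ?_
        rw [Set.ofPred_forall]
        exact isClosed_iInter fun x => isClosed_le (by fun_prop) (by fun_prop)
      have hdir : Directed (· ⊇ ·)
          (fun z : C => K ∩ {q : M → ℝ | ∀ x, q x ≤ OrderDual.ofDual z.1 x}) := by
        intro z w
        rcases hch.total z.2 w.2 with h | h
        · exact ⟨w, fun q hq => ⟨hq.1, fun x => le_trans (hq.2 x) (h x)⟩, fun q hq => hq⟩
        · exact ⟨z, fun q hq => hq, fun q hq => ⟨hq.1, fun x => le_trans (hq.2 x) (h x)⟩⟩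
      obtain ⟨q, hq⟩ := IsCompact.nonempty_iInter_of_directed_nonempty_isCompact_isClosed
        (fun z : C => K ∩ {q : M → ℝ | ∀ x, q x ≤ OrderDual.ofDual z.1 x}) hdir
        (fun z => ⟨OrderDual.ofDual z.1, hC z.2, fun x => le_refl _⟩)
        (fun z => hK.of_isClosed_subset (hcl z) Set.inter_subset_left) hcl
      rw [Set.mem_iInter] at hq
      obtain ⟨z0⟩ := this
      exact ⟨q, (hq z0).1, fun z hz => (hq ⟨z, hz⟩).2⟩)
  obtain ⟨h1, h2, h3⟩ := hp.prop
  refine ⟨p, h1, fun x b => le_antisymm (h2 x b) ?_, le_antisymm (S.le_N h1 c0) ?_⟩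
  · obtain ⟨q, q1, q2, q3, -, q5⟩ := S.derive h1 h2 b
    have hqK : q ∈ K := ⟨q1, q2, q5 c0 _ h3⟩
    have hle : p ≤ OrderDual.toDual q := fun y => by
      have a1 := q3 y
      have a2 := h2 y b
      change q y ≤ p y
      linarith
    have := hp.le_of_ge hqK hle x
    have a1 := q3 x
    change p x ≤ q x at this
    linarith
  · have := h3 e
    rw [S.at_e h1, S.comm, S.one] at this
    linarith

/-- an additive element for one operation is subadditive for the other -/
theorem Sys.cross {op' : M → M → M} (S : Sys op e N) (S' : Sys op' e N)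
    (hN : ∀ x y, N (op x y) = N (op' x y)) {p : M → ℝ} (hp : p ∈ HH op N)
    (ha : ∀ x y, p (op x y) = p x + p y) (x b : M) : p (op' x b) ≤ p x + p b := by
  have hH : HH op N = HH op' N := by simp only [HH, hN]
  have hg := S'.shift (hH ▸ hp) b
  rw [← hH] at hg
  by_contra hlt
  have hd : 0 < p (op' x b) - p b - p x := by linarith
  obtain ⟨k, hk⟩ := pow_unbounded_of_one_lt (N b / (p (op' x b) - p b - p x))
    (by norm_num : (1 : ℝ) < 2)
  rw [div_lt_iff₀ hd] at hk
  have h1 := S.pw_ge hg x k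
  have h2 := S'.lip (hH ▸ hp) (pw op e x (2 ^ k)) b
  have h3 := S.pw_le hp (fun x y => (ha x y).le) x (2 ^ k)
  have h4 := S.nonneg hp b
  push_cast at h3
  nlinarith

end Abstract

section CStar

variable {A : Type} [NonUnitalCStarAlgebra A] [PartialOrder A] [StarOrderedRing A]

abbrev P (A : Type) [NonUnitalCStarAlgebra A] [PartialOrder A] : Type := {a : A // 0 ≤ a}

def ad (a b : P A) : P A := ⟨a.1 + b.1, add_nonneg a.2 b.2⟩

def ze : P A := ⟨0, le_refl _⟩

noncomputable def nm (a : P A) : ℝ := ‖a.1‖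

lemma sys_ad : Sys (ad (A := A)) ze nm where
  comm a b := Subtype.ext (add_comm _ _)
  assoc a b c := Subtype.ext (add_assoc _ _ _)
  one a := Subtype.ext (add_zero _)
  zero := norm_zero
  sub a b := norm_add_le _ _
  mono a b := CStarAlgebra.norm_le_norm_of_nonneg_of_le a.2 (le_add_of_nonneg_right b.2)
  two a := by
    change ‖a.1 + a.1‖ = 2 * ‖a.1‖
    rw [← two_smul ℝ a.1, norm_smul]; simp

lemma HH_mono {p : P A → ℝ} (hp : p ∈ HH ad nm) {u v : P A} (h : u.1 ≤ v.1) : p u ≤ p v := by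
  refine HH_ind (P := {p | p u ≤ p v}) (isClosed_le (by fun_prop) (by fun_prop))
    (fun c => ?_) hp
  have := CStarAlgebra.norm_le_norm_of_nonneg_of_le (add_nonneg u.2 c.2) (add_le_add_left h c.1)
  simp only [Set.mem_ofPred_eq, nm, ad]; linarith

lemma peak (x y : P A) (h : ¬ x.1 ≤ y.1) :
    ∃ E c : P A, ad x E = ad y c ∧ nm E < nm c := by
  have hd : IsSelfAdjoint (x.1 - y.1) := x.2.isSelfAdjoint.sub y.2.isSelfAdjoint
  set d := x.1 - y.1 with hdd
  have hp : d⁺ ≠ 0 := by
    intro h0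
    rw [CFC.posPart_eq_zero_iff d hd, hdd, sub_nonpos] at h0
    exact h h0
  have hl : 0 < ‖d⁺‖ := norm_pos_iff.mpr hp
  set s : ℝ := ‖d⁻‖ / ‖d⁺‖ with hs
  have hs0 : 0 ≤ s := by positivity
  have p1 : 0 ≤ d⁺ := CFC.posPart_nonneg d
  have p2 : 0 ≤ d⁻ := CFC.negPart_nonneg d
  refine ⟨⟨s • d⁺ + d⁻, add_nonneg (smul_nonneg hs0 p1) p2⟩,
    ⟨(1 + s) • d⁺, smul_nonneg (by positivity) p1⟩, ?_, ?_⟩
  · apply Subtype.ext
    have := CFC.posPart_sub_negPart d hd
    simp only [ad]
    rw [add_smul, one_smul]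
    have e : x.1 = y.1 + (d⁺ - d⁻) := by rw [this, hdd]; abel
    conv_lhs => rw [e]
    abel
  · simp only [nm]
    rw [IsSelfAdjoint.norm_add_eq_max (smul_nonneg hs0 p1).isSelfAdjoint p2.isSelfAdjoint
      (by rw [smul_mul_assoc, CFC.posPart_mul_negPart, smul_zero]), norm_smul, norm_smul,
      Real.norm_of_nonneg hs0, Real.norm_of_nonneg (by positivity)]
    have : s * ‖d⁺‖ = ‖d⁻‖ := by rw [hs]; field_simp
    rw [this, max_self]; linarith

lemma detect (x y : P A) (h : ¬ x.1 ≤ y.1) :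
    ∃ p ∈ HH ad nm, (∀ u v : P A, p (ad u v) = p u + p v) ∧ p y < p x := by
  obtain ⟨E, c, h1, h2⟩ := peak x y h
  obtain ⟨p, hp, ha, hc⟩ := sys_ad.exists_additive c
  refine ⟨p, hp, ha, ?_⟩
  have a1 := ha x E
  have a2 := ha y c
  have a3 := sys_ad.le_N hp E
  rw [h1] at a1
  linarith

lemma le_of_norm (x y : P A) (h : ∀ c : P A, nm (ad x c) ≤ nm (ad y c)) : x.1 ≤ y.1 := by
  by_contra hn
  obtain ⟨p, hp, -, hlt⟩ := detect x y hn
  have : p ∈ {p : P A → ℝ | p x ≤ p y} :=
    HH_ind (isClosed_le (by fun_prop) (by fun_prop)) (fun c => by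
      have := h c
      simp only [Set.mem_ofPred_eq]; linarith) hp
  exact absurd hlt (not_lt.mpr this)

lemma eq_of_norm (x y : P A) (h : ∀ c : P A, nm (ad x c) = nm (ad y c)) : x = y :=
  Subtype.ext (le_antisymm (le_of_norm x y fun c => (h c).le) (le_of_norm y x fun c => (h c).ge))

theorem op_eq {op : P A → P A → P A} (S : Sys op ze nm)
    (hN : ∀ x y, nm (ad x y) = nm (op x y)) (a b : P A) : op a b = ad a b := by
  have hH : HH ad nm = HH op nm := by simp only [HH, hN]
  have hle : ∀ a b : P A, (op a b).1 ≤ (ad a b).1 := by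
    intro a b
    by_contra hn
    obtain ⟨p, hp, ha, hlt⟩ := detect _ _ hn
    have := sys_ad.cross S hN hp ha a b
    rw [ha] at hlt
    linarith
  refine Subtype.ext (le_antisymm (hle a b) ?_)
  by_contra hn
  obtain ⟨E, c, h1, h2⟩ := peak _ _ hn
  obtain ⟨p, hp, ha, hc⟩ := S.exists_additive c
  have a1 := S.cross sys_ad (fun x y => (hN x y).symm) hp ha a b
  have a2 := sys_ad.lip (hH ▸ hp) (ad a b) E
  have a3 := HH_mono (hH ▸ hp) (hle (op a b) c)
  rw [h1] at a2
  rw [ha, ha] at a3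
  linarith

theorem main {B : Type} [AddCommMonoid B] (T : B → P A) (hsurj : Function.Surjective T)
    (hT : ∀ f g, nm (ad (T f) (T g)) = nm (T (f + g))) (f g : B) :
    T (f + g) = ad (T f) (T g) := by
  have hwd : ∀ f f' g, T f = T f' → T (f + g) = T (f' + g) := by
    intro f f' g h
    refine eq_of_norm _ _ fun c => ?_
    obtain ⟨k, rfl⟩ := hsurj c
    rw [hT, hT, add_assoc, add_assoc, ← hT, ← hT f', h]
  let r : P A → B := Function.surjInv hsurj
  have hr : ∀ a, T (r a) = a := Function.surjInv_eq hsurj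
  let op : P A → P A → P A := fun a b => T (r a + r b)
  have hop : ∀ f g, op (T f) (T g) = T (f + g) := by
    intro f g
    simp only [op]
    rw [hwd _ f _ (hr _), add_comm, hwd _ g _ (hr _), add_comm]
  have h0 : T 0 = ze := by
    have h1 := hT 0 0
    rw [add_zero, sys_ad.two] at h1
    have h2 : nm (T 0) = 0 := by linarith
    exact Subtype.ext (norm_eq_zero.mp h2)
  have hN : ∀ x y, nm (ad x y) = nm (op x y) := by
    intro x y
    simp only [op]
    rw [← hT, hr, hr]
  have S : Sys op ze nm :=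
    { comm := fun a b => by simp only [op, add_comm]
      assoc := fun a b c => by
        obtain ⟨f, rfl⟩ := hsurj a
        obtain ⟨g, rfl⟩ := hsurj b
        obtain ⟨k, rfl⟩ := hsurj c
        simp only [hop, add_assoc]
      one := fun a => by
        obtain ⟨f, rfl⟩ := hsurj a
        rw [← h0, hop, add_zero]
      zero := sys_ad.zero
      sub := fun a b => hN a b ▸ sys_ad.sub a b
      mono := fun a b => hN a b ▸ sys_ad.mono a b
      two := fun a => hN a a ▸ sys_ad.two a }
  rw [← hop, op_eq S hN]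

end CStar

end Pool.Agent.H.MP_c8dc36_an
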